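import Pool.Agent.Q207.EP.Ind
import Pool.Agent.Q207.EP.LWI
import Pool.Agent.Y120.H.Fml

/-!
# Exponentials of algebraic numbers are independent of the periods of the fibres of families at almost all integral points

Let `X_i → S_i`, `1 ≤ i ≤ k`, be families of varieties over open parts of the line over `ℚ`, near rational points `x_i = 0` (where they
may degenerate). Their periods are polynomials in `log x_i`, in G-functions with rational coefficients and in constants.

Let `α_1, …, α_m` be algebraic numbers which are linearly independent over `ℚ`. At almost all tuples `t` of integers the numbers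
`e^{α_1}, …, e^{α_m}` are algebraically independent over the field generated by the algebraic numbers, the logarithms `log t_i` and the
values of the G-functions at the `1 / t_i`, as far as relations of bounded degree are concerned. The same holds for all numbers
`β_1, …, β_m` which are algebraically independent over a field `ℚ(ξ_1, …, ξ_g)`, relative to the `ξ`, the logarithms and the values
of the G-functions. The bound for the number of the exceptional `t` does not depend on the numbers `α`, `β`, `ξ`.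
-/

set_option autoImplicit false

open PowerSeries

namespace Pool.Agent.Results.MP_2cf66e_nt.ExponentialsAndFibres

/-! ### Families of G-functions -/

/-- an integer polynomial as a power series with rational coefficients -/
noncomputable def toQ (P : Polynomial ℤ) : PowerSeries ℚ := ((P.map (Int.castRingHom ℚ) : Polynomial ℚ) : PowerSeries ℚ)

/-- the power series `P(u^e)` -/
noncomputable def atPow (e : ℕ) (P : Polynomial ℤ) : PowerSeries ℂ :=
  ((Polynomial.expand ℂ e (P.map (Int.castRingHom ℂ)) : Polynomial ℂ) : PowerSeries ℂ)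

/-- the matrices `G_s` over `ℤ[x]` with `T^s y^(s) = G_s y` for all solutions `y` of `T y' = A y` -/
noncomputable def iter {r : ℕ} (T : Polynomial ℤ) (A : Fin r → Fin r → Polynomial ℤ) : ℕ → Fin r → Fin r → Polynomial ℤ
  | 0 => fun i j => if i = j then 1 else 0
  | s + 1 => fun i j => T * Polynomial.derivative (iter T A s i j) + ∑ l, iter T A s i l * A l j -
      (s : Polynomial ℤ) * (Polynomial.derivative T * iter T A s i j)

/-- The system `T y' = A y` has a fundamental matrix of solutions of the form `u^(-M) ∑_n Φ_n(u) (log u)^n` with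
`u^e = x` and convergent power series `Φ_n`: the point `0` is regular or a regular singularity with rational
exponents. -/
def QuasiUnipotent {r : ℕ} (T : Polynomial ℤ) (A : Fin r → Fin r → Polynomial ℤ) : Prop :=
  ∃ (e M : ℕ) (K : ℝ) (Φ : Matrix (Fin r) (Fin r) (Polynomial (PowerSeries ℂ))), 1 ≤ e ∧ Φ.det ≠ 0 ∧
    (∀ i j n m, ‖coeff m ((Φ i j).coeff n)‖ ≤ K ^ (m + 1)) ∧
    ∀ i j n, atPow e T * (X * PowerSeries.derivative ℂ ((Φ i j).coeff n) +
        ((n : PowerSeries ℂ) + 1) * (Φ i j).coeff (n + 1) - (M : PowerSeries ℂ) * (Φ i j).coeff n) =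
      (e : PowerSeries ℂ) * X ^ e * ∑ l, atPow e (A i l) * (Φ l j).coeff n

/-- `h_1, ..., h_r` are G-functions with rational coefficients which solve the differential system `T y' = A y`, with
the conditions of Siegel and Galochkin, and `0` is a regular point or a regular singularity with rational exponents of
the system. -/
structure GFamily {r : ℕ} (T : Polynomial ℤ) (A : Fin r → Fin r → Polynomial ℤ) (h : Fin r → PowerSeries ℚ) : Prop where
  /-- the denominator is not zero -/
  T_ne : T ≠ 0
  /-- the differential equations -/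
  ode : ∀ i, toQ T * PowerSeries.derivative ℚ (h i) = ∑ j, toQ (A i j) * h j
  /-- the coefficients have geometric growth -/
  size : ∃ C : ℝ, ∀ i m, |((coeff m (h i) : ℚ) : ℝ)| ≤ C ^ (m + 1)
  /-- the common denominators of the coefficients have geometric growth -/
  den : ∃ C : ℝ, ∀ m : ℕ, ∃ d : ℕ, 0 < d ∧ (d : ℝ) ≤ C ^ (m + 1) ∧ ∀ i, ∀ j ≤ m, ∃ a : ℤ, (d : ℚ) * coeff j (h i) = a
  /-- Galochkin's condition: the common denominators of the matrices `G_s / s!` have geometric growth -/
  galochkin : ∃ C : ℝ, ∀ m : ℕ, ∃ d : ℕ, 0 < d ∧ (d : ℝ) ≤ C ^ (m + 1) ∧ ∀ s ≤ m, ∀ i j,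
    ∃ H : Polynomial ℤ, (d : Polynomial ℤ) * iter T A s i j = (s.factorial : Polynomial ℤ) * H
  /-- the local exponents at `0` are rational and the singularity is regular -/
  regular : QuasiUnipotent T A

/-! ### Relations -/

section
variable {k m g : ℕ} {ρ : Fin k → ℕ}

/-- The numbers `log t_i` (the index is `(i, none)`) and `h_{i,l}(1 / t_i)` (the index is `(i, some l)`). -/
noncomputable def values (h : ∀ i, Fin (ρ i) → PowerSeries ℚ) (t : Fin k → ℕ) : (Σ i, Option (Fin (ρ i))) → ℂ := fun p =>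
  p.2.elim ((Real.log (t p.1) : ℝ) : ℂ) fun l =>
    ((∑' m : ℕ, ((coeff m (h p.1 l) : ℚ) : ℝ) * (1 / (t p.1 : ℝ)) ^ m : ℝ) : ℂ)

/-- There is a polynomial `P` over `ℚ` of degree at most `δ` such that `P(β, ξ, log t_i, h_{i,l}(1 / t_i)) = 0`, and
`P(y, ξ, log t_i, h_{i,l}(1 / t_i)) ≠ 0` for some `y` in `ℂ ^ m`: the relation is not trivial in the numbers `β`. -/
def Dependent (δ : ℕ) (h : ∀ i, Fin (ρ i) → PowerSeries ℚ) (β : Fin m → ℂ) (ξ : Fin g → ℂ) (t : Fin k → ℕ) : Prop :=
  ∃ P : MvPolynomial ((Fin m ⊕ Fin g) ⊕ Σ i, Option (Fin (ρ i))) ℚ, P.totalDegree ≤ δ ∧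
    MvPolynomial.aeval (Sum.elim (Sum.elim β ξ) (values h t)) P = 0 ∧
    ∃ y : Fin m → ℂ, MvPolynomial.aeval (Sum.elim (Sum.elim y ξ) (values h t)) P ≠ 0

/-- Each box `∏_i (x_i, x_i + N]` contains at most `C N^(k-1) ∑_i (1 + N / (x_i + N)^c)` integral points with the property `p`. -/
def Rare (c C : ℝ) (p : (Fin k → ℕ) → Prop) : Prop :=
  ∀ (x : Fin k → ℕ) (N : ℕ), 1 ≤ N → (({t : Fin k → ℕ | (∀ i, x i < t i ∧ t i ≤ x i + N) ∧ p t}.ncard : ℕ) : ℝ) ≤
    C * (N : ℝ) ^ (k - 1) * ∑ i, (1 + N / ((x i : ℝ) + N) ^ c)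

end

theorem iter_eq {r : ℕ} (T : Polynomial ℤ) (A : Fin r → Fin r → Polynomial ℤ) (s : ℕ) :
    iter T A s = Pool.Agent.Y120.GH.itm T A s := by
  induction s with
  | zero => rfl
  | succ s ih =>
    funext i j
    rw [iter, Pool.Agent.Y120.GH.itm, ih]

theorem qu_eq {r : ℕ} {T : Polynomial ℤ} {A : Fin r → Fin r → Polynomial ℤ} (h : QuasiUnipotent T A) :
    Pool.Agent.Y120.GH.QU0 T A := by
  obtain ⟨e, M, K, Φ, he, hdet, hc, heq⟩ := h
  have he0 : e ≠ 0 := by omega
  refine ⟨e, he0, M, K, Φ, hc, fun i j n => ?_, hdet⟩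
  have h1 := heq i j n
  simp only [atPow] at h1
  rw [Pool.Agent.Y120.GH.expand_poly he0]
  simp only [Pool.Agent.Y120.GH.expand_poly he0]
  exact h1

theorem fam {r : ℕ} {T : Polynomial ℤ} {A : Fin r → Fin r → Polynomial ℤ} {h : Fin r → PowerSeries ℚ}
    (hG : GFamily T A h) (δ : ℕ) : Pool.Agent.Y120.R.Fam δ h :=
  ⟨hG.size, Pool.Agent.Y120.GH.family_main hG.T_ne hG.ode hG.size hG.den (by
    obtain ⟨C, hC⟩ := hG.galochkin
    refine ⟨C, fun m => ?_⟩
    obtain ⟨d, h1, h2, h3⟩ := hC m
    refine ⟨d, h1, h2, fun s hs i' j' => ?_⟩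
    rw [← iter_eq]
    exact h3 s hs i' j') (qu_eq hG.regular) δ⟩

/-- Let `h_i`, `1 ≤ i ≤ k`, be families of G-functions over `ℚ` (with the conditions of Siegel and Galochkin, regular singular
with rational exponents at `0`), and let `δ`, `m`, `g` be given. There are `c > 0` and `C` with the following properties.
(1) If `α_1, …, α_m` are algebraic numbers which are linearly independent over `ℚ`, and `ω_1, …, ω_g` are algebraic numbers, then for
all but `C N^(k-1) ∑_i (1 + N / (x_i + N)^c)` integral points `t` of each box `∏_i (x_i, x_i + N]` all relations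
`P(e^{α_1}, …, e^{α_m}, ω, log t_i, h_{i,l}(1 / t_i)) = 0` with polynomials `P` over `ℚ` of degree at most `δ` are trivial: they hold
with arbitrary numbers in the places of `e^{α_1}, …, e^{α_m}`.
(2) The same for all complex numbers `β_1, …, β_m` in the places of `e^{α_1}, …, e^{α_m}` and all complex numbers `ξ_1, …, ξ_g` in the
places of the `ω`, if `β_1, …, β_m` are algebraically independent over the field `ℚ(ξ_1, …, ξ_g)`. -/
theorem result (k m g δ : ℕ) (ρ : Fin k → ℕ) (T : Fin k → Polynomial ℤ)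
    (A : ∀ i, Fin (ρ i) → Fin (ρ i) → Polynomial ℤ) (h : ∀ i, Fin (ρ i) → PowerSeries ℚ)
    (hG : ∀ i, GFamily (T i) (A i) (h i)) :
    ∃ c C : ℝ, 0 < c ∧
      (∀ (α : Fin m → ℂ) (ω : Fin g → ℂ), (∀ i, IsAlgebraic ℚ (α i)) → LinearIndependent ℚ α → (∀ i, IsAlgebraic ℚ (ω i)) →
        Rare c C (Dependent δ h (fun i => Complex.exp (α i)) ω)) ∧
      (∀ (β : Fin m → ℂ) (ξ : Fin g → ℂ), AlgebraicIndependent (IntermediateField.adjoin ℚ (Set.range ξ)) β →
        Rare c C (Dependent δ h β ξ)) := by
  classical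
  obtain ⟨c, C, hc, -, hmain⟩ := Q207.EP.algind m g δ fun i => fam (hG i) δ
  have hgen : ∀ (β : Fin m → ℂ) (ξ : Fin g → ℂ), AlgebraicIndependent (IntermediateField.adjoin ℚ (Set.range ξ)) β →
      Rare c C (Dependent δ h β ξ) := by
    intro β ξ hβ x N hN
    have hfin : {t : Fin k → ℕ | (∀ i, x i < t i ∧ t i ≤ x i + N) ∧ Dependent δ h β ξ t}.Finite := by
      refine (Set.finite_Iic (fun i : Fin k => x i + N)).subset ?_
      intro t ht i
      exact (ht.1 i).2
    rw [Set.ncard_eq_toFinset_card _ hfin]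
    refine hmain β ξ hβ x N hN _ fun t ht => ?_
    obtain ⟨hbox, P, hP, hP0, hy⟩ := hfin.mem_toFinset.1 ht
    exact ⟨hbox, P, hP, hP0, hy⟩
  refine ⟨c, C, hc, fun α ω hα hli hω => hgen _ _ ?_, hgen⟩
  have hint : ∀ z ∈ Set.range ω, IsIntegral ℚ z := by
    rintro z ⟨i, rfl⟩
    exact (hω i).isIntegral
  have h1 : Algebra.IsAlgebraic ℚ (IntermediateField.adjoin ℚ (Set.range ω)) := IntermediateField.isAlgebraic_adjoin hint
  exact (Q207.EP.lw_ind α hα hli).extendScalars _

end Pool.Agent.Results.MP_2cf66e_nt.ExponentialsAndFibres
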