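import Pool.Agent.Q54.KZ.Una

/-!
# Real periods are the first moments of the regions given by bilinear inequalities

The number `e` (and every real number) is a period if and only if it is the integral of the coordinate `x_1` over a
region of `ℝ ^ n × ℝ ^ m` given by finitely many inequalities which are bilinear in `(1, x)` and `(1, y)`, with integer
coefficients, whose fibres over the points `x` all have volume `0` or `1`.
-/

set_option autoImplicit false

namespace Pool.Agent.Results.MP_2cf66e_nt.FirstMoment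

open MeasureTheory

/-- The region of `ℝ ^ n × ℝ ^ m` given by the inequalities `∑_{a, b} T_{c a b} x_a y_b > 0`, where `x_0 = y_0 = 1`. -/
def Region {n m r : ℕ} (T : Fin r → Fin (n + 1) → Fin (m + 1) → ℤ) : Set ((Fin n → ℝ) × (Fin m → ℝ)) :=
  {z | ∀ c, 0 < ∑ a, ∑ b, (T c a b : ℝ) * (Fin.cons 1 z.1 : Fin (n + 1) → ℝ) a * (Fin.cons 1 z.2 : Fin (m + 1) → ℝ) b}

/-- The form of the frozen statement, for a real number `v`. -/
def IsPeriod (v : ℝ) : Prop :=
  ∃ (n : ℕ) (P Q : MvPolynomial (Fin n) ℚ) (k m : ℕ)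
      (p : Fin k → Fin m → MvPolynomial (Fin n) ℚ),
      IntegrableOn
        (fun x : Fin n → ℝ => (MvPolynomial.aeval x P / MvPolynomial.aeval x Q : ℝ))
        {x : Fin n → ℝ | ∃ j, ∀ i, 0 < (MvPolynomial.aeval x (p j i) : ℝ)} volume ∧
      (∫ x in {x : Fin n → ℝ | ∃ j, ∀ i, 0 < (MvPolynomial.aeval x (p j i) : ℝ)},
          (MvPolynomial.aeval x P / MvPolynomial.aeval x Q : ℝ)) = v

theorem result (v : ℝ) : IsPeriod v ↔ ∃ (n m r : ℕ) (T : Fin r → Fin (n + 1 + 1) → Fin (m + 1) → ℤ),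
    (∀ x, volume {y | (x, y) ∈ Region T} ∈ ({0, 1} : Set ENNReal)) ∧
    IntegrableOn (fun z : (Fin (n + 1) → ℝ) × (Fin m → ℝ) => z.1 0) (Region T) ∧ ∫ z in Region T, z.1 0 = v := by
  constructor
  · rintro ⟨n, P, Q, k, m, p, h1, h2⟩
    have h3 : {x : Fin n → ℝ | ∃ j, ∀ i, 0 < (MvPolynomial.aeval x (p j i) : ℝ)} =
        Q54.KZ.uni (List.ofFn fun j => List.ofFn (p j)) := by
      ext x
      simp only [Q54.KZ.uni, Set.mem_ofPred_eq, List.mem_ofFn', Set.mem_range, exists_exists_eq_and,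
        forall_exists_index, forall_apply_eq_imp_iff]
    rw [h3] at h1 h2
    have h4 := Q54.KZ.integral_uni_mem k (List.ofFn fun j => List.ofFn (p j)) (by simp) P Q h1
    rw [h2] at h4
    exact Q54.KZ.exists_moment (Q54.KZ.vols_le h4)
  · rintro ⟨n, m, r, T, -, h1, h2⟩
    have h3 := Q54.KZ.integral_coord T
    have h4 : {x : Fin (n + 1 + m) → ℝ | ∃ _j : Fin 1, ∀ i, 0 < (MvPolynomial.aeval x (Q54.KZ.bil (T i)) : ℝ)} =
        {z | ∀ c, 0 < (MvPolynomial.aeval z (Q54.KZ.bil (T c)) : ℝ)} := by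
      ext x
      simp
    refine ⟨n + 1 + m, MvPolynomial.X (Fin.castAdd m 0), 1, 1, r, fun _ c => Q54.KZ.bil (T c), ?_, ?_⟩
    · simp only [MvPolynomial.aeval_X, map_one, div_one]
      rw [h4]
      exact h3.1.1 h1
    · simp only [MvPolynomial.aeval_X, map_one, div_one]
      rw [h4, h3.2]
      exact h2

end Pool.Agent.Results.MP_2cf66e_nt.FirstMoment
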