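import Pool.Agent.Q138.PS.YH
import Pool.Agent.Results.MP_2cf66e_nt.ExponentialsAndFibres

/-!
# Exponentials of algebraic numbers and the periods of the fibres at integers close to `c n^j α^n`

Let `X → S` be a family of varieties over an open part of the line over `ℚ`, near the rational point `x = 0` (where it may
degenerate). The periods of the fibre at `x = 1 / t` are polynomials in `log t`, in the values at `1 / t` of G-functions with
rational coefficients and in constants. For numbers `β_1, …, β_m` and constants `ξ_1, …, ξ_g` we say that `t` is exceptional if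
there is a relation of degree at most `δ` between the `β`, the `ξ`, `log t` and the values of the G-functions at `1 / t` which is
not trivial in the `β`.

For almost every real number `α > 1` the following holds for countably many families and countably many numbers at once: if the
`β` are algebraically independent over `ℚ(ξ)`, for instance exponentials of linearly independent algebraic numbers with algebraic
constants, then for all `δ` there is `κ > 0` such that for all algebraic numbers `c > 0`, all integers `j`, all real `D` and all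
large `n`, NO integer `t ≥ 1` with `|t - c n^j α^n| ≤ D (c n^j α^n)^κ` is exceptional.
-/

set_option autoImplicit false

namespace Pool.Agent.Results.MP_2cf66e_nt.IndependenceNearPowers

open Filter MeasureTheory PowerSeries Pool.Agent.Q138.PS
open Pool.Agent.Results.MP_2cf66e_nt.ExponentialsAndFibres (GFamily Dependent)

/-- the numbers `log t` (the index is `none`) and `h_l(1 / t)` (the index is `some l`) -/
noncomputable def vals {r : ℕ} (h : Fin r → PowerSeries ℚ) (t : ℕ) : Option (Fin r) → ℂ := fun p =>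
  p.elim ((Real.log t : ℝ) : ℂ) fun l => ((∑' m : ℕ, ((coeff m (h l) : ℚ) : ℝ) * (1 / (t : ℝ)) ^ m : ℝ) : ℂ)

/-- there is a polynomial `P` over `ℚ` of degree at most `δ` such that `P(β, ξ, log t, h_l(1 / t)) = 0`, and
`P(y, ξ, log t, h_l(1 / t)) ≠ 0` for some `y` in `ℂ ^ m`: the relation is not trivial in the numbers `β` -/
def Dep {r m g : ℕ} (δ : ℕ) (h : Fin r → PowerSeries ℚ) (β : Fin m → ℂ) (ξ : Fin g → ℂ) (t : ℕ) : Prop :=
  ∃ P : MvPolynomial ((Fin m ⊕ Fin g) ⊕ Option (Fin r)) ℚ, P.totalDegree ≤ δ ∧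
    MvPolynomial.aeval (Sum.elim (Sum.elim β ξ) (vals h t)) P = 0 ∧
    ∃ y : Fin m → ℂ, MvPolynomial.aeval (Sum.elim (Sum.elim y ξ) (vals h t)) P ≠ 0

theorem aeval_move {r m g : ℕ} (h : Fin r → PowerSeries ℚ) (β : Fin m → ℂ) (ξ : Fin g → ℂ) (t : ℕ)
    (P : MvPolynomial ((Fin m ⊕ Fin g) ⊕ Option (Fin r)) ℚ) :
    MvPolynomial.aeval (Sum.elim (Sum.elim β ξ) (ExponentialsAndFibres.values (k := 1) (ρ := fun _ => r) (fun _ => h)
      (fun _ => t))) (MvPolynomial.rename (Sum.map id fun o => (⟨0, o⟩ : Σ _ : Fin 1, Option (Fin r))) P) =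
    MvPolynomial.aeval (Sum.elim (Sum.elim β ξ) (vals h t)) P := by
  rw [MvPolynomial.aeval_rename]
  congr 2
  funext p
  rcases p with p | p
  · rfl
  · rcases p with _ | p <;> rfl

theorem toDependent {r m g : ℕ} {δ : ℕ} {h : Fin r → PowerSeries ℚ} {β : Fin m → ℂ} {ξ : Fin g → ℂ} {t : ℕ}
    (hr : Dep δ h β ξ t) : Dependent (k := 1) (ρ := fun _ => r) δ (fun _ => h) β ξ (fun _ => t) := by
  obtain ⟨P, h1, h2, y, h3⟩ := hr
  refine ⟨MvPolynomial.rename (Sum.map id fun o => ⟨0, o⟩) P, (MvPolynomial.totalDegree_rename_le _ _).trans h1, ?_,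
    y, ?_⟩
  · rw [aeval_move]
    exact h2
  · rw [aeval_move]
    exact h3

/-- **Theorem.** Let `h_i`, `i ∈ ι`, be countably many families of G-functions over `ℚ` (with the conditions of Siegel and
Galochkin, regular singular with rational exponents at `0`), and let `S` be a countable set of complex numbers. For almost every
real number `α > 1` the following holds for all `i ∈ ι` and all natural numbers `δ`, `m`, `g`.
(1) If `a_1, …, a_m` are algebraic numbers which are linearly independent over `ℚ`, and `ω_1, …, ω_g` are algebraic numbers, then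
along the powers of `α` it is rare that there is a relation `P(e^{a_1}, …, e^{a_m}, ω, log t, h_{i,l}(1 / t)) = 0` with a polynomial
`P` over `ℚ` of degree at most `δ` which is not trivial in the `e^{a_l}`.
(2) The same for all `β_1, …, β_m` and `ξ_1, …, ξ_g` in `S` in the place of the `e^{a_l}` and the `ω`, if `β_1, …, β_m` are
algebraically independent over the field `ℚ(ξ_1, …, ξ_g)`. -/
theorem result {ι : Type} [Countable ι] (r : ι → ℕ) (T : ι → Polynomial ℤ) (A : ∀ i, Fin (r i) → Fin (r i) → Polynomial ℤ)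
    (h : ∀ i, Fin (r i) → PowerSeries ℚ) (hG : ∀ i, GFamily (T i) (A i) (h i)) (S : Set ℂ) (hS : S.Countable) :
    ∀ᵐ α : ℝ, 1 < α → ∀ (i : ι) (δ m g : ℕ),
      (∀ (a : Fin m → ℂ) (ω : Fin g → ℂ), (∀ l, IsAlgebraic ℚ (a l)) → LinearIndependent ℚ a →
        (∀ l, IsAlgebraic ℚ (ω l)) → RarePow α 1 (Dep δ (h i) (fun l => Complex.exp (a l)) ω)) ∧
      (∀ (β : Fin m → ℂ) (ξ : Fin g → ℂ), (∀ l, β l ∈ S) → (∀ l, ξ l ∈ S) →
        AlgebraicIndependent (IntermediateField.adjoin ℚ (Set.range ξ)) β → RarePow α 1 (Dep δ (h i) β ξ)) := by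
  have halg : {x : ℂ | IsAlgebraic ℚ x}.Countable := Algebraic.countable ℚ ℂ
  have hcS : ∀ g, Countable {ξ : Fin g → ℂ // ∀ i, ξ i ∈ S} := tuples_countable hS
  have hcA : ∀ g, Countable {ξ : Fin g → ℂ // ∀ i, ξ i ∈ {x : ℂ | IsAlgebraic ℚ x}} := tuples_countable halg
  have hae := rarePow_ae (ι := ι × ℕ × (Σ m : ℕ, {ξ : Fin m → ℂ // ∀ i, ξ i ∈ {x : ℂ | IsAlgebraic ℚ x}}) ×
      (Σ g : ℕ, {ξ : Fin g → ℂ // ∀ i, ξ i ∈ {x : ℂ | IsAlgebraic ℚ x}}))
    (fun p => Dep p.2.1 (h p.1) (fun l => Complex.exp (p.2.2.1.2.1 l)) p.2.2.2.2.1)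
  have hae2 := rarePow_ae (ι := ι × ℕ × (Σ m : ℕ, {ξ : Fin m → ℂ // ∀ i, ξ i ∈ S}) ×
      (Σ g : ℕ, {ξ : Fin g → ℂ // ∀ i, ξ i ∈ S}))
    (fun p => Dep p.2.1 (h p.1) p.2.2.1.2.1 p.2.2.2.2.1)
  filter_upwards [hae, hae2] with α hg hg2 hα i δ m g
  obtain ⟨c, C, hc, h1, h2⟩ := ExponentialsAndFibres.result 1 m g δ (fun _ => r i) (fun _ => T i) (fun _ => A i)
      (fun _ => h i) (fun _ => hG i)
  refine ⟨fun a ω ha hli hω => ?_, fun β ξ hβ hξ hind => ?_⟩
  · exact hg hα (i, δ, ⟨m, a, ha⟩, ⟨g, ω, hω⟩) 1 (few_of_boxes hc (fun t ht => toDependent ht) (h1 a ω ha hli hω))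
  · exact hg2 hα (i, δ, ⟨m, β, hβ⟩, ⟨g, ξ, hξ⟩) 1 (few_of_boxes hc (fun t ht => toDependent ht) (h2 β ξ hind))

end Pool.Agent.Results.MP_2cf66e_nt.IndependenceNearPowers
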