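import Pool.Agent.Q189.EP.Num

/-!
# `e` and the periods of punctured lines: a measure of independence

Let `a_1, …, a_r` be distinct nonzero integers. The periods of the fundamental groupoid of
`ℙ¹ ∖ {0, 1 / a_1, …, 1 / a_r, ∞}` between `0` and `y = 1 / x` are, up to `2πi`, the polynomials in `log x` and in the
hyperlogarithms `L_w(y)`, the iterated integrals from `0` to `y` of words in the forms `dy / y` and `dy / (1 - a_i y)`,
the last of which is not `dy / y`. All polynomials in these periods at points `1 / x_1, …, 1 / x_k` are linear combinations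
of the products `π_b = ∏_j (log x_j) ^ (e_j) L_(w_j)(1 / x_j)`.

The theorem: let `θ` be transcendental and algebraic over `ℤ[e]`, for instance `θ = e`. For almost all tuples of algebraic
integers `x_j` of degree at most `m` and conjugates at most `T`, all nontrivial linear forms in the products `π_b`
with coefficients in `ℤ[θ, x]`, of bounded degree and of height at most `H`, have absolute value at least `H ^ (-B)`. In
particular `e` has no approximation better than `H ^ (-B)` by the numbers of the ring of these periods with coefficients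
of height `H`, and is not an element of this ring.
-/

set_option autoImplicit false

open PowerSeries

namespace Pool.Agent.Results.MP_2cf66e_nt.NearRelationsWithE

/-- The coefficients of the hyperlogarithm of a word, that is of the iterated integral from `0` of the forms `dy / y` (for
the letter `none`) and `dy / (1 - a_i y)` (for the letter `some i`); the first letter is the outermost integration. -/
noncomputable def co {r : ℕ} (a : Fin r → ℤ) : List (Option (Fin r)) → ℕ → ℚ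
  | [], m => if m = 0 then 1 else 0
  | none :: w, m => co a w m / m
  | some i :: w, m => (∑ l ∈ Finset.range m, (a i : ℚ) ^ (m - 1 - l) * co a w l) / m

/-- the hyperlogarithm of a word -/
noncomputable def L {r : ℕ} (a : Fin r → ℤ) (w : List (Option (Fin r))) (y : ℂ) : ℂ := ∑' m : ℕ, (co a w m : ℂ) * y ^ m

/-- the words of length at most `W` whose last letter is not `none` -/
abbrev Word (r W : ℕ) : Type := {w : List (Option (Fin r)) // w.length ≤ W ∧ w.getLast? ≠ some none}

/-- there are finitely many words -/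
noncomputable instance (r W : ℕ) : Fintype (Word r W) := inferInstanceAs (Fintype (Pool.Agent.Y119.ML.WI r W))

/-- the indices: for every point an exponent of the logarithm and a word -/
abbrev Idx {k : ℕ} (r : Fin k → ℕ) (W : ℕ) : Type := ∀ j, Fin (W + 1) × Word (r j) W

/-- the product `∏_j ℓ_j ^ (e_j) L_(w_j)(1 / x_j)` -/
noncomputable def prod {k : ℕ} {r : Fin k → ℕ} (a : ∀ j, Fin (r j) → ℤ) {W : ℕ} (x ℓ : Fin k → ℂ) (b : Idx r W) : ℂ :=
  ∏ j, (ℓ j ^ ((b j).1 : ℕ) * L (a j) (b j).2 (1 / x j))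

/-- the algebraic integers of degree at most `m` all of whose conjugates have absolute value at most `T` -/
def Ints (m T : ℕ) : Set ℂ :=
  {α | IsIntegral ℤ α ∧ (minpoly ℚ α).natDegree ≤ m ∧ ∀ z : ℂ, Polynomial.aeval z (minpoly ℚ α) = 0 → ‖z‖ ≤ T}

/-- the point with the coordinates `θ` and `x` -/
def pt {k : ℕ} (θ : ℂ) (x : Fin k → ℂ) : Option (Fin k) → ℂ := fun o => o.elim θ x

/-- The inequality at the height `H`, for all determinations `ℓ_j` of `log x_j` with `|ℓ_j| ≤ H`. -/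
def Good {k : ℕ} {r : Fin k → ℕ} (a : ∀ j, Fin (r j) → ℤ) (W d B : ℕ) (θ : ℂ) (x : Fin k → ℂ) (H : ℝ) : Prop :=
  ∀ ℓ : Fin k → ℂ, (∀ j, Complex.exp (ℓ j) = x j) → (∀ j, ‖ℓ j‖ ≤ H) →
    ∀ P : Idx r W → MvPolynomial (Option (Fin k)) ℤ, (∀ b, (P b).totalDegree ≤ d) →
      (∀ b e, |(((P b).coeff e : ℤ) : ℝ)| ≤ H) → (∃ b z, MvPolynomial.aeval (pt z x) (P b) ≠ 0) →
      1 ≤ H ^ B * ‖∑ b, MvPolynomial.aeval (pt θ x) (P b) * prod a x ℓ b‖

theorem co_eq {r : ℕ} (a : Fin r → ℤ) (w : List (Option (Fin r))) (m : ℕ) :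
    co a w m = coeff m (Pool.Agent.Y119.ML.LL a 0 w) := by
  induction w generalizing m with
  | nil =>
    show _ = coeff m (1 : ℚ⟦X⟧)
    rw [coeff_one]
    rfl
  | cons o w ih =>
    rcases o with _ | i
    · show co a w m / m = coeff m (Pool.Agent.Y119.ML.In (Pool.Agent.Y119.ML.UU a 0 none * Pool.Agent.Y119.ML.LL a 0 w))
      rw [Pool.Agent.Q189.HL.UU_none, one_mul, Pool.Agent.Y119.ML.In, coeff_mk, ih]
    · show (∑ l ∈ Finset.range m, (a i : ℚ) ^ (m - 1 - l) * co a w l) / m =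
        coeff m (Pool.Agent.Y119.ML.In (Pool.Agent.Y119.ML.UU a 0 (some i) * Pool.Agent.Y119.ML.LL a 0 w))
      have h5 : Pool.Agent.Y119.ML.geo ((0 : ℕ) : ℤ) = 1 := Pool.Agent.Q189.HL.geo_zero
      have h6 : Pool.Agent.Y119.ML.geo (((0 : ℕ) : ℤ) + a i) = Pool.Agent.Y119.ML.geo (a i) := by simp
      have h7 : Pool.Agent.Y119.ML.UU a 0 (some i) = X * Pool.Agent.Y119.ML.geo (a i) := by
        show X * Pool.Agent.Y119.ML.geo ((0 : ℕ) : ℤ) * Pool.Agent.Y119.ML.geo (((0 : ℕ) : ℤ) + a i) = _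
        rw [h5, h6, mul_one]
      rw [Pool.Agent.Y119.ML.In, coeff_mk, h7]
      congr 1
      rcases m with _ | m
      · rw [mul_assoc, coeff_zero_X_mul]
        simp
      · rw [mul_assoc, coeff_succ_X_mul, mul_comm, coeff_mul, Finset.Nat.sum_antidiagonal_eq_sum_range_succ_mk]
        refine Finset.sum_congr rfl fun l hl => ?_
        rw [ih, Pool.Agent.Y119.ML.geo, coeff_mk, mul_comm]
        rfl

theorem L_eq {r : ℕ} (a : Fin r → ℤ) (w : List (Option (Fin r))) (y : ℂ) :
    L a w y = Pool.Agent.Y916.Al.evc y (Pool.Agent.Y119.ML.LL a 0 w) := by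
  unfold L Pool.Agent.Y916.Al.evc
  exact tsum_congr fun m => by rw [co_eq]

/-- Let `a_1, …, a_k` be finite families of distinct nonzero integers, and let `θ` be transcendental and algebraic over
`ℤ[e]`. For all `W`, `d`, `m ≥ 1` there are `B`, `C` and `c > 0` such that for all `T ≥ 1`: (1) for every sufficiently large
`H₁`, all but at most `C T ^ (-c) |Ints m T| ^ k` of the tuples `x ∈ (Ints m T)^k` are good for all `H` with
`H₁ ≤ H ≤ H₁ ^ exp (T ^ c)`; (2) all but at most `C T ^ (-c) |Ints m T| ^ k` of the tuples have the property that there are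
arbitrarily large `N` such that, for all but at most `T ^ (-c) N` of the `s < N`, `x` is good for all `H` with
`2 ^ (2 ^ s) ≤ H ≤ 2 ^ (2 ^ (s + 1))`. -/
theorem result (k : ℕ) (r : Fin k → ℕ) (a : ∀ j, Fin (r j) → ℤ) (ha : ∀ j, Function.Injective (a j))
    (h0 : ∀ j i, a j i ≠ 0) (θ : ℂ) (hθ : Transcendental ℤ θ)
    (he : IsAlgebraic (Algebra.adjoin ℤ ({Complex.exp 1} : Set ℂ)) θ) (W d m : ℕ) (hm : 1 ≤ m) :
    ∃ (B : ℕ) (C c : ℝ), 0 < c ∧ ∀ T : ℕ, 1 ≤ T →
    (∃ H₀ : ℝ, ∀ H₁ : ℝ, H₀ ≤ H₁ →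
      (({x : Fin k → ℂ | (∀ j, x j ∈ Ints m T) ∧ ¬ ∀ H : ℝ, H₁ ≤ H → H ≤ H₁ ^ Real.exp ((T : ℝ) ^ c) →
        Good a W d B θ x H}.ncard : ℕ) : ℝ) ≤ C * (T : ℝ) ^ (-c) * (((Ints m T).ncard : ℕ) : ℝ) ^ k) ∧
    (({x : Fin k → ℂ | (∀ j, x j ∈ Ints m T) ∧ ¬ ∀ N₀ : ℕ, ∃ N, N₀ ≤ N ∧
      (({s : ℕ | s < N ∧ ¬ ∀ H : ℝ, 2 ^ (2 ^ s) ≤ H → H ≤ 2 ^ (2 ^ (s + 1)) → Good a W d B θ x H}.ncard : ℕ) : ℝ) ≤
        (T : ℝ) ^ (-c) * N}.ncard : ℕ) : ℝ) ≤ C * (T : ℝ) ^ (-c) * (((Ints m T).ncard : ℕ) : ℝ) ^ k := by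
  have hgood : ∀ (B : ℕ) (x : Fin k → ℂ) (H : ℝ), Good a W d B θ x H ↔
      Pool.Agent.Q189.EP.GdT a W d B θ x H := by
    intro B x H
    unfold Good Pool.Agent.Q189.EP.GdT prod
    simp only [L_eq]
    refine forall_congr' fun ℓ => forall_congr' fun _ => forall_congr' fun _ => ?_
    refine forall_congr' fun P => forall_congr' fun _ => forall_congr' fun _ => ?_
    exact ⟨fun h b hb => h ⟨b, hb⟩, fun h hb => h hb.choose hb.choose_spec⟩
  simp only [hgood]
  exact Pool.Agent.Q189.EP.mainT a ha h0 W m d hm (Pool.Agent.Q189.EP.measT_over_e he hθ)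

end Pool.Agent.Results.MP_2cf66e_nt.NearRelationsWithE
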